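import Pool.Agent.H731_Dp.Diff

/-!
Continuity of dilations in the weighted `L^p` norm.
-/

set_option autoImplicit false

namespace H731Dp

open MeasureTheory Complex Filter Topology Metric
open scoped ENNReal

theorem W_le_one {p : ℝ} (hp : 1 ≤ p) {z : ℂ} (hz : z ∈ ball (0:ℂ) 1) : W p z ≤ 1 := by
  unfold W
  rw [← ENNReal.ofReal_one]
  apply ENNReal.ofReal_le_ofReal
  have := mem_ball_zero_iff.mp hz
  apply Real.rpow_le_one
  · linarith
  · linarith [norm_nonneg z]
  · linarith

theorem J_const {p : ℝ} (hp : 1 ≤ p) (c : ℝ≥0∞) : J p (fun _ => c) ≤ c * volume (ball (0:ℂ) 1) := by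
  unfold J
  calc ∫⁻ z in ball (0:ℂ) 1, W p z * c ≤ ∫⁻ z in ball (0:ℂ) 1, c := by
        refine setLIntegral_mono' measurableSet_ball fun z hz => ?_
        calc W p z * c ≤ 1 * c := by gcongr; exact W_le_one hp hz
          _ = c := one_mul c
    _ = c * volume (ball (0:ℂ) 1) := by
        rw [lintegral_const, Measure.restrict_apply MeasurableSet.univ, Set.univ_inter]

theorem add_rpow {p : ℝ} (hp : 1 ≤ p) (a b : ℝ≥0∞) : (a + b) ^ p ≤ 2 ^ (p - 1) * (a ^ p + b ^ p) :=
  ENNReal.rpow_add_le_mul_rpow_add_rpow a b hp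

/-- tail integrals tend to zero -/
theorem tail_tendsto {p : ℝ} {g : ℂ → ℂ} (hg : Measurable g)
    (hfin : J p (fun w => ‖g w‖ₑ ^ p) ≠ ⊤) :
    Tendsto (fun m : ℕ => J p ({w : ℂ | 1 - 1 / ((m : ℝ) + 1) ≤ ‖w‖}.indicator
      (fun w => ‖g w‖ₑ ^ p))) atTop (𝓝 0) := by
  unfold J at *
  have h := tendsto_lintegral_of_dominated_convergence (μ := volume.restrict (ball (0:ℂ) 1))
    (F := fun (m : ℕ) w => W p w * ({w : ℂ | 1 - 1 / ((m : ℝ) + 1) ≤ ‖w‖}.indicator
      (fun w => ‖g w‖ₑ ^ p)) w)
    (f := fun _ => 0) (fun w => W p w * ‖g w‖ₑ ^ p)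
    (fun m => by
      have h1 : Measurable ({w : ℂ | 1 - 1 / ((m : ℝ) + 1) ≤ ‖w‖}.indicator
          (fun w => ‖g w‖ₑ ^ p)) := by
        apply Measurable.indicator (by fun_prop)
        exact measurableSet_le measurable_const measurable_norm
      exact (W_meas p).mul h1)
    (fun m => by
      refine Eventually.of_forall fun w => ?_
      simp only
      gcongr
      exact Set.indicator_le_self _ _ _)
    hfin
    (by
      refine (ae_restrict_iff' measurableSet_ball).mpr (Eventually.of_forall fun w hw => ?_)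
      have hw' : ‖w‖ < 1 := mem_ball_zero_iff.mp hw
      have h1 : Tendsto (fun m : ℕ => 1 - 1 / ((m : ℝ) + 1)) atTop (𝓝 (1 - 0)) :=
        tendsto_const_nhds.sub tendsto_one_div_add_atTop_nhds_zero_nat
      rw [sub_zero] at h1
      have h2 := h1.eventually_const_lt hw'
      apply tendsto_const_nhds.congr'
      filter_upwards [h2] with m hm
      rw [Set.indicator_of_notMem, mul_zero]
      simp only [Set.mem_ofPred_eq, not_le]
      exact hm)
  simpa using h

theorem aux_half {A δ : ℝ≥0∞} (h0 : A ≠ 0) (ht : A ≠ ⊤) : A * (δ / (2 * A)) = δ / 2 := by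
  rw [ENNReal.div_eq_inv_mul, ENNReal.mul_inv (Or.inl (by norm_num)) (Or.inl (by norm_num)),
    ENNReal.div_eq_inv_mul, mul_comm (2⁻¹ : ℝ≥0∞) A⁻¹, mul_assoc, ← mul_assoc A,
    ENNReal.mul_inv_cancel h0 ht, one_mul]

theorem dil_tendsto {p : ℝ} (hp : 1 ≤ p) {g : ℂ → ℂ} (hg : Measurable g)
    (hc : ContinuousOn g (ball 0 1)) (hfin : J p (fun w => ‖g w‖ₑ ^ p) ≠ ⊤) {r : ℕ → ℝ}
    (h0 : ∀ j, 1 / 2 ≤ r j) (h1 : ∀ j, r j < 1) (hr : Tendsto r atTop (𝓝 1)) :
    Tendsto (fun j => J p (fun z => ‖g z - r j * g (r j * z)‖ₑ ^ p)) atTop (𝓝 0) := by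
  have hp0 : 0 < p := by linarith
  rw [ENNReal.tendsto_nhds_zero]
  intro δ hδ
  set A : ℝ≥0∞ := 2 ^ (p - 1) * 5 with hA
  have hA0 : A ≠ 0 := by
    rw [hA]
    apply mul_ne_zero _ (by norm_num)
    exact (ENNReal.rpow_pos (by norm_num) (by norm_num)).ne'
  have hAt : A ≠ ⊤ := by
    rw [hA]
    exact ENNReal.mul_ne_top (ENNReal.rpow_ne_top_of_nonneg (by linarith) (by norm_num))
      (by norm_num)
  have hε : 0 < δ / (2 * A) := ENNReal.div_pos hδ.ne' (ENNReal.mul_ne_top (by norm_num) hAt)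
  obtain ⟨m, hm⟩ := ((ENNReal.tendsto_nhds_zero.mp (tail_tendsto hg hfin)) _ hε).exists
  set ρ : ℝ := 1 - 1 / ((m : ℝ) + 1) with hρ
  have hρ0 : 0 ≤ ρ := by
    rw [hρ, sub_nonneg, div_le_one (by positivity)]
    linarith [Nat.cast_nonneg (α := ℝ) m]
  have hρ1 : ρ < 1 := by
    rw [hρ]
    linarith [show (0:ℝ) < 1 / ((m : ℝ) + 1) by positivity]
  set ρ' : ℝ := (1 + ρ) / 2 with hρ'
  have hρ'0 : 0 < ρ' := by rw [hρ']; linarith
  have hρ'1 : ρ' < 1 := by rw [hρ']; linarith
  -- inner part
  obtain ⟨B, hB⟩ := (isCompact_closedBall (0:ℂ) ρ').exists_bound_of_continuousOn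
    (hc.mono (closedBall_subset_ball hρ'1))
  have hB0 : 0 ≤ B := (norm_nonneg _).trans (hB 0 (mem_closedBall_self hρ'0.le))
  have hball : MeasurableSet {w : ℂ | ‖w‖ < ρ'} := measurableSet_lt measurable_norm measurable_const
  have hinner : Tendsto (fun j => J p ({w : ℂ | ‖w‖ < ρ'}.indicator
      (fun z => ‖g z - r j * g (r j * z)‖ₑ ^ p))) atTop (𝓝 0) := by
    unfold J
    have h := tendsto_lintegral_of_dominated_convergence (μ := volume.restrict (ball (0:ℂ) 1))
      (F := fun j w => W p w * ({w : ℂ | ‖w‖ < ρ'}.indicator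
        (fun z => ‖g z - r j * g (r j * z)‖ₑ ^ p)) w)
      (f := fun _ => 0) (fun w => W p w * ENNReal.ofReal (2 * B) ^ p)
      (fun j => by
        apply (W_meas p).mul
        apply Measurable.indicator _ hball
        fun_prop)
      (fun j => by
        refine Eventually.of_forall fun w => ?_
        simp only
        gcongr
        by_cases hw : ‖w‖ < ρ'
        · rw [Set.indicator_of_mem (by exact hw)]
          gcongr
          rw [← ofReal_norm]
          apply ENNReal.ofReal_le_ofReal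
          have hn1 := norm_dil_le (by linarith [h0 j] : 0 ≤ r j) (h1 j).le w
          have e1 := hB w (mem_closedBall_zero_iff.mpr hw.le)
          have e2 := hB (r j * w) (mem_closedBall_zero_iff.mpr (by linarith))
          calc ‖g w - r j * g (r j * w)‖ ≤ ‖g w‖ + ‖(r j : ℂ) * g (r j * w)‖ := norm_sub_le _ _
            _ ≤ B + B := by
                gcongr
                exact (norm_dil_le (by linarith [h0 j] : 0 ≤ r j) (h1 j).le _).trans e2
            _ = 2 * B := by ring
        · rw [Set.indicator_of_notMem (by exact hw)]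
          exact zero_le)
      (by
        have := J_const hp (ENNReal.ofReal (2 * B) ^ p)
        refine ne_top_of_le_ne_top ?_ this
        exact ENNReal.mul_ne_top (ENNReal.rpow_ne_top_of_nonneg hp0.le ENNReal.ofReal_ne_top)
          measure_ball_lt_top.ne)
      (by
        refine (ae_restrict_iff' measurableSet_ball).mpr (Eventually.of_forall fun w hw => ?_)
        by_cases hw' : ‖w‖ < ρ'
        · simp_rw [Set.indicator_of_mem (show w ∈ {w : ℂ | ‖w‖ < ρ'} from hw')]
          have e0 : Tendsto (fun j => (r j : ℂ)) atTop (𝓝 1) := by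
            have := (Complex.continuous_ofReal.tendsto 1).comp hr
            rw [Complex.ofReal_one] at this
            exact this
          have e1 : Tendsto (fun j => (r j : ℂ) * w) atTop (𝓝 w) := by
            simpa using e0.mul_const w
          have e2 : Tendsto (fun j => g (r j * w)) atTop (𝓝 (g w)) :=
            ((hc.continuousAt (isOpen_ball.mem_nhds hw)).tendsto).comp e1
          have e3 : Tendsto (fun j => g w - r j * g (r j * w)) atTop (𝓝 (g w - 1 * g w)) :=
            tendsto_const_nhds.sub (e0.mul e2)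
          rw [one_mul, sub_self] at e3
          have e4 := (e3.enorm).ennrpow_const p
          rw [enorm_zero, ENNReal.zero_rpow_of_pos hp0] at e4
          have e5 := ENNReal.Tendsto.const_mul (a := W p w) e4 (Or.inr (by
            unfold W; exact ENNReal.ofReal_ne_top))
          rwa [mul_zero] at e5
        · simp_rw [Set.indicator_of_notMem (show w ∉ {w : ℂ | ‖w‖ < ρ'} from hw'), mul_zero]
          exact tendsto_const_nhds)
    simpa using h
  have hδ2 : 0 < δ / 2 := ENNReal.half_pos hδ.ne'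
  have hev := (ENNReal.tendsto_nhds_zero.mp hinner) _ hδ2
  have hev2 : ∀ᶠ j in atTop, ρ ≤ r j * ρ' := by
    have : Tendsto (fun j => r j * ρ') atTop (𝓝 (1 * ρ')) := hr.mul_const ρ'
    rw [one_mul] at this
    exact (this.eventually_const_lt (by rw [hρ']; linarith : ρ < ρ')).mono fun j hj => hj.le
  filter_upwards [hev, hev2] with j hj1 hj2
  set T : ℂ → ℝ≥0∞ := {w : ℂ | ρ ≤ ‖w‖}.indicator (fun w => ‖g w‖ₑ ^ p) with hT
  have hTm : Measurable T := by
    apply Measurable.indicator (by fun_prop)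
    exact measurableSet_le measurable_const measurable_norm
  have hsplit : ∀ z ∈ ball (0:ℂ) 1, ‖g z - r j * g (r j * z)‖ₑ ^ p ≤
      {w : ℂ | ‖w‖ < ρ'}.indicator (fun z => ‖g z - r j * g (r j * z)‖ₑ ^ p) z +
        2 ^ (p - 1) * (T z + T (r j * z)) := by
    intro z _
    by_cases hz : ‖z‖ < ρ'
    · rw [Set.indicator_of_mem (by exact hz)]
      exact le_self_add
    · rw [Set.indicator_of_notMem (by exact hz), zero_add]
      push Not at hz
      have hz1 : z ∈ {w : ℂ | ρ ≤ ‖w‖} := by
        simp only [Set.mem_ofPred_eq]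
        have : ρ < ρ' := by rw [hρ']; linarith
        linarith
      have hz2 : (r j : ℂ) * z ∈ {w : ℂ | ρ ≤ ‖w‖} := by
        simp only [Set.mem_ofPred_eq]
        rw [norm_mul, Complex.norm_real, Real.norm_eq_abs, abs_of_nonneg (by linarith [h0 j])]
        have := h0 j
        nlinarith
      rw [hT, Set.indicator_of_mem hz1, Set.indicator_of_mem hz2]
      calc ‖g z - r j * g (r j * z)‖ₑ ^ p ≤ (‖g z‖ₑ + ‖g (r j * z)‖ₑ) ^ p := by
            gcongr
            refine enorm_sub_le.trans ?_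
            gcongr
            rw [← ofReal_norm, ← ofReal_norm]
            exact ENNReal.ofReal_le_ofReal
              (norm_dil_le (by linarith [h0 j] : 0 ≤ r j) (h1 j).le _)
        _ ≤ _ := add_rpow hp _ _
  refine (J_mono hsplit).trans ?_
  have hm1 : Measurable ({w : ℂ | ‖w‖ < ρ'}.indicator
      (fun z => ‖g z - r j * g (r j * z)‖ₑ ^ p)) := by
    apply Measurable.indicator _ hball
    fun_prop
  have hTm' : Measurable (fun z => T (r j * z)) := by fun_prop
  have hsum : Measurable (fun z => T z + T (r j * z)) := hTm.add hTm'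
  rw [J_add _ _ hm1, J_const_mul _ _ hsum, J_add _ _ hTm]
  have hT1 : J p (fun z => T (r j * z)) ≤ 4 * J p T := J_dil hp (h0 j) (h1 j).le hTm
  have hT2 : J p T ≤ δ / (2 * A) := hm
  calc J p ({w : ℂ | ‖w‖ < ρ'}.indicator (fun z => ‖g z - r j * g (r j * z)‖ₑ ^ p)) +
        2 ^ (p - 1) * (J p T + J p fun z => T (r j * z))
      ≤ δ / 2 + 2 ^ (p - 1) * (δ / (2 * A) + 4 * (δ / (2 * A))) := by
        gcongr
        exact hT1.trans (by gcongr)
    _ = δ / 2 + A * (δ / (2 * A)) := by rw [hA]; ring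
    _ = δ := by
        rw [aux_half hA0 hAt, ENNReal.add_halves]

end H731Dp
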