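import Pool.Agent.H731_Dp.Dil

/-!
The main estimate: `‖M'(r z) (f(z) - f(r z))‖` is small in the weighted `L^p` norm.
-/

set_option autoImplicit false

namespace H731Dp

open MeasureTheory Complex Filter Topology Metric
open scoped ENNReal

/-- the cut-off factor -/
noncomputable def cut (r : ℝ) (w : ℂ) : ℝ≥0∞ := ENNReal.ofReal ((1 - r) / max (1 - r) (1 - ‖w‖))

theorem cut_meas (r : ℝ) : Measurable (cut r) := by
  unfold cut
  fun_prop

theorem I_bound {p : ℝ} (hp : 1 < p) {M f : ℂ → ℂ} {K : ℝ} (hM : DifferentiableOn ℂ M (ball 0 1))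
    (hK : ∀ z ∈ ball (0:ℂ) 1, ‖M z‖ ≤ K) (hf : DifferentiableOn ℂ f (ball 0 1)) {r : ℝ}
    (hr : 1 / 2 ≤ r) (hr1 : r < 1) :
    J p (fun z => (‖deriv M (r * z)‖ₑ * ‖f z - f (r * z)‖ₑ) ^ p) ≤
      4 * J p (fun w => (ENNReal.ofReal K * cut r w * ‖deriv f w‖ₑ) ^ p) := by
  have hp0 : 0 < p := by linarith
  have hK0 : 0 ≤ K := (norm_nonneg _).trans (hK 0 (mem_ball_self one_pos))
  have hdm : Measurable (deriv f) := measurable_deriv f
  set ψ : ℂ → ℝ≥0∞ := fun w => ENNReal.ofReal (K / max (1 - r) (1 - ‖w‖)) ^ p *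
    ENNReal.ofReal (1 - r) ^ (p - 1) * ‖deriv f w‖ₑ ^ p with hψ
  have hψm : Measurable ψ := by
    rw [hψ]
    fun_prop
  have h1 : J p (fun z => (‖deriv M (r * z)‖ₑ * ‖f z - f (r * z)‖ₑ) ^ p) ≤
      J p (fun z => ∫⁻ t in Set.Ioc r 1, ψ (t * z)) := by
    apply J_mono
    intro z hz
    have hz' : ‖z‖ < 1 := mem_ball_zero_iff.mp hz
    have hrz := dil_mem (by linarith : 0 ≤ r) hr1.le hz
    have hnrz : ‖(r : ℂ) * z‖ = r * ‖z‖ := by
      rw [norm_mul, Complex.norm_real, Real.norm_eq_abs, abs_of_nonneg (by linarith)]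
    have ha : ‖deriv M (r * z)‖ₑ ≤ ENNReal.ofReal (K / (1 - r * ‖z‖)) := by
      rw [← ofReal_norm]
      apply ENNReal.ofReal_le_ofReal
      have := deriv_bound hM hK hrz
      rwa [hnrz] at this
    have hb := diff_le hf (by linarith : 0 ≤ r) hr1.le hz
    calc (‖deriv M (r * z)‖ₑ * ‖f z - f (r * z)‖ₑ) ^ p
        ≤ (ENNReal.ofReal (K / (1 - r * ‖z‖)) *
            ∫⁻ t in Set.Ioc r 1, ‖deriv f (t * z)‖ₑ) ^ p := by
          gcongr
      _ = ENNReal.ofReal (K / (1 - r * ‖z‖)) ^ p *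
            (∫⁻ t in Set.Ioc r 1, ‖deriv f (t * z)‖ₑ) ^ p := ENNReal.mul_rpow_of_nonneg _ _ hp0.le
      _ ≤ ENNReal.ofReal (K / (1 - r * ‖z‖)) ^ p *
            (ENNReal.ofReal (1 - r) ^ (p - 1) *
              ∫⁻ t in Set.Ioc r 1, ‖deriv f (t * z)‖ₑ ^ p) := by
          gcongr
          exact holder_Ioc hp (by fun_prop)
      _ = ∫⁻ t in Set.Ioc r 1, ENNReal.ofReal (K / (1 - r * ‖z‖)) ^ p *
            ENNReal.ofReal (1 - r) ^ (p - 1) * ‖deriv f (t * z)‖ₑ ^ p := by
          rw [← mul_assoc, ← lintegral_const_mul _ (by fun_prop)]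
      _ ≤ ∫⁻ t in Set.Ioc r 1, ψ (t * z) := by
          refine setLIntegral_mono' measurableSet_Ioc fun t ht => ?_
          rw [hψ]
          simp only
          gcongr
          have hntz : ‖(t : ℂ) * z‖ = t * ‖z‖ := by
            rw [norm_mul, Complex.norm_real, Real.norm_eq_abs,
              abs_of_nonneg (by linarith [ht.1])]
          rw [hntz]
          apply max_le
          · nlinarith [norm_nonneg z]
          · nlinarith [norm_nonneg z, ht.1]
  refine h1.trans ?_
  have h2 : J p (fun z => ∫⁻ t in Set.Ioc r 1, ψ (t * z)) =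
      ∫⁻ t in Set.Ioc r 1, J p (fun z => ψ (t * z)) := by
    unfold J
    rw [← lintegral_lintegral_swap]
    · refine lintegral_congr fun z => ?_
      rw [lintegral_const_mul _ (by fun_prop)]
    · apply Measurable.aemeasurable
      have := W_meas p
      unfold Function.uncurry
      fun_prop
  rw [h2]
  calc ∫⁻ t in Set.Ioc r 1, J p (fun z => ψ (t * z)) ≤ ∫⁻ t in Set.Ioc r 1, 4 * J p ψ := by
        refine setLIntegral_mono' measurableSet_Ioc fun t ht => ?_
        exact J_dil hp.le (by linarith [ht.1]) ht.2 hψm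
    _ = 4 * J p (fun w => (ENNReal.ofReal K * cut r w * ‖deriv f w‖ₑ) ^ p) := by
        rw [lintegral_const, Measure.restrict_apply MeasurableSet.univ, Set.univ_inter,
          Real.volume_Ioc, mul_assoc, mul_comm (J p ψ), ← J_const_mul _ _ hψm]
        congr 2
        funext w
        rw [hψ]
        simp only
        have hm : 0 < max (1 - r) (1 - ‖w‖) := lt_max_of_lt_left (by linarith)
        have hx0 : ENNReal.ofReal (1 - r) ≠ 0 := by
          rw [Ne, ENNReal.ofReal_eq_zero, not_le]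
          linarith
        have e1 : ENNReal.ofReal K * cut r w =
            ENNReal.ofReal (K / max (1 - r) (1 - ‖w‖)) * ENNReal.ofReal (1 - r) := by
          unfold cut
          rw [← ENNReal.ofReal_mul hK0, ← ENNReal.ofReal_mul (by positivity)]
          congr 1
          ring
        have e2 : ENNReal.ofReal (1 - r) ^ p =
            ENNReal.ofReal (1 - r) * ENNReal.ofReal (1 - r) ^ (p - 1) := by
          nth_rewrite 2 [← ENNReal.rpow_one (ENNReal.ofReal (1 - r))]
          rw [← ENNReal.rpow_add _ _ hx0 ENNReal.ofReal_ne_top]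
          congr 1
          ring
        rw [ENNReal.mul_rpow_of_nonneg _ _ hp0.le, e1, ENNReal.mul_rpow_of_nonneg _ _ hp0.le, e2]
        ring

theorem cut_le_one {r : ℝ} (hr1 : r < 1) (w : ℂ) : cut r w ≤ 1 := by
  unfold cut
  rw [← ENNReal.ofReal_one]
  apply ENNReal.ofReal_le_ofReal
  rw [div_le_one (lt_max_of_lt_left (by linarith))]
  exact le_max_left _ _

theorem cut_tendsto {w : ℂ} (hw : w ∈ ball (0:ℂ) 1) {r : ℕ → ℝ} (hr : Tendsto r atTop (𝓝 1)) :
    Tendsto (fun j => cut (r j) w) atTop (𝓝 0) := by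
  have hw' : ‖w‖ < 1 := mem_ball_zero_iff.mp hw
  unfold cut
  rw [← ENNReal.ofReal_zero]
  apply ENNReal.tendsto_ofReal
  have h1 : Tendsto (fun j => 1 - r j) atTop (𝓝 0) := by
    have := (tendsto_const_nhds (x := (1:ℝ))).sub hr
    simpa using this
  have h2 : Tendsto (fun j => max (1 - r j) (1 - ‖w‖)) atTop (𝓝 (max 0 (1 - ‖w‖))) :=
    h1.max tendsto_const_nhds
  have h3 := h1.div h2 (by rw [max_eq_right (by linarith)]; linarith)
  rwa [zero_div] at h3

theorem I_tendsto {p : ℝ} (hp : 1 < p) {M f : ℂ → ℂ} {K : ℝ} (hM : DifferentiableOn ℂ M (ball 0 1))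
    (hK : ∀ z ∈ ball (0:ℂ) 1, ‖M z‖ ≤ K) (hf : DifferentiableOn ℂ f (ball 0 1))
    (hfin : J p (fun w => ‖deriv f w‖ₑ ^ p) ≠ ⊤) {r : ℕ → ℝ} (h0 : ∀ j, 1 / 2 ≤ r j)
    (h1 : ∀ j, r j < 1) (hr : Tendsto r atTop (𝓝 1)) :
    Tendsto (fun j => J p (fun z => (‖deriv M (r j * z)‖ₑ * ‖f z - f (r j * z)‖ₑ) ^ p))
      atTop (𝓝 0) := by
  have hp0 : 0 < p := by linarith
  have hdm : Measurable (deriv f) := measurable_deriv f
  have key : Tendsto (fun j => J p (fun w => (ENNReal.ofReal K * cut (r j) w * ‖deriv f w‖ₑ) ^ p))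
      atTop (𝓝 0) := by
    unfold J
    have h := tendsto_lintegral_of_dominated_convergence (μ := volume.restrict (ball (0:ℂ) 1))
      (F := fun j w => W p w * (ENNReal.ofReal K * cut (r j) w * ‖deriv f w‖ₑ) ^ p)
      (f := fun _ => 0) (fun w => ENNReal.ofReal K ^ p * (W p w * ‖deriv f w‖ₑ ^ p))
      (fun j => by
        have := W_meas p
        have := cut_meas (r j)
        fun_prop)
      (fun j => by
        refine Eventually.of_forall fun w => ?_
        simp only
        rw [ENNReal.mul_rpow_of_nonneg _ _ hp0.le]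
        calc W p w * ((ENNReal.ofReal K * cut (r j) w) ^ p * ‖deriv f w‖ₑ ^ p)
            ≤ W p w * ((ENNReal.ofReal K * 1) ^ p * ‖deriv f w‖ₑ ^ p) := by
              gcongr
              exact cut_le_one (h1 j) w
          _ = _ := by rw [mul_one]; ring)
      (by
        have hm : Measurable (fun w => W p w * ‖deriv f w‖ₑ ^ p) := by
          have := W_meas p
          fun_prop
        rw [lintegral_const_mul _ hm]
        exact ENNReal.mul_ne_top (ENNReal.rpow_ne_top_of_nonneg hp0.le ENNReal.ofReal_ne_top) hfin)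
      (by
        refine (ae_restrict_iff' measurableSet_ball).mpr (Eventually.of_forall fun w hw => ?_)
        have hc := cut_tendsto hw hr
        have h2 : Tendsto (fun j => ENNReal.ofReal K * cut (r j) w * ‖deriv f w‖ₑ) atTop
            (𝓝 (ENNReal.ofReal K * 0 * ‖deriv f w‖ₑ)) := by
          apply ENNReal.Tendsto.mul_const
          · exact ENNReal.Tendsto.const_mul hc (Or.inr ENNReal.ofReal_ne_top)
          · exact Or.inr enorm_ne_top
        rw [mul_zero, zero_mul] at h2
        have h3 := h2.ennrpow_const p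
        rw [ENNReal.zero_rpow_of_pos hp0] at h3
        have h4 := ENNReal.Tendsto.const_mul (a := W p w) h3 (Or.inr (by
          unfold W; exact ENNReal.ofReal_ne_top))
        rwa [mul_zero] at h4)
    simpa using h
  have key2 := ENNReal.Tendsto.const_mul (a := 4) key (Or.inr (by norm_num))
  rw [mul_zero] at key2
  refine tendsto_of_tendsto_of_tendsto_of_le_of_le tendsto_const_nhds key2 (fun _ => zero_le)
    fun j => ?_
  exact I_bound hp hM hK hf (h0 j) (h1 j)

end H731Dp
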