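import Mathlib

/-!
Weighted integrals over the disc, dilations and the averaged difference estimate.
-/

set_option autoImplicit false

namespace H731Dp

open MeasureTheory Complex Filter Topology Metric
open scoped ENNReal

/-- the weight `(1 - |z|)^(p-1)` -/
noncomputable def W (p : ℝ) (z : ℂ) : ℝ≥0∞ := ENNReal.ofReal ((1 - ‖z‖) ^ (p - 1))

theorem W_meas (p : ℝ) : Measurable (W p) := by
  unfold W
  fun_prop

/-- weighted integral over the disc -/
noncomputable def J (p : ℝ) (g : ℂ → ℝ≥0∞) : ℝ≥0∞ := ∫⁻ z in ball (0:ℂ) 1, W p z * g z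

theorem J_mono {p : ℝ} {g h : ℂ → ℝ≥0∞} (H : ∀ z ∈ ball (0:ℂ) 1, g z ≤ h z) : J p g ≤ J p h := by
  unfold J
  refine setLIntegral_mono' measurableSet_ball fun z hz => ?_
  gcongr
  exact H z hz

theorem J_const_mul {p : ℝ} (c : ℝ≥0∞) (g : ℂ → ℝ≥0∞) (hg : Measurable g) :
    J p (fun z => c * g z) = c * J p g := by
  unfold J
  have h : Measurable (fun z => W p z * g z) := (W_meas p).mul hg
  rw [← lintegral_const_mul _ h]
  refine lintegral_congr fun z => ?_
  ring

theorem J_add {p : ℝ} (g h : ℂ → ℝ≥0∞) (hg : Measurable g) :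
    J p (fun z => g z + h z) = J p g + J p h := by
  unfold J
  have h' : Measurable (fun z => W p z * g z) := (W_meas p).mul hg
  rw [← lintegral_add_left h']
  refine lintegral_congr fun z => ?_
  ring

theorem norm_dil_le {t : ℝ} (h0 : 0 ≤ t) (h1 : t ≤ 1) (z : ℂ) : ‖(t : ℂ) * z‖ ≤ ‖z‖ := by
  rw [norm_mul, Complex.norm_real, Real.norm_eq_abs, abs_of_nonneg h0]
  nlinarith [norm_nonneg z]

theorem dil_mem {t : ℝ} (h0 : 0 ≤ t) (h1 : t ≤ 1) {z : ℂ} (hz : z ∈ ball (0:ℂ) 1) :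
    (t : ℂ) * z ∈ ball (0:ℂ) 1 := by
  rw [mem_ball_zero_iff] at *
  exact (norm_dil_le h0 h1 z).trans_lt hz

theorem J_dil {p : ℝ} (hp : 1 ≤ p) {t : ℝ} (h0 : 1 / 2 ≤ t) (h1 : t ≤ 1) {g : ℂ → ℝ≥0∞}
    (hg : Measurable g) : J p (fun z => g (t * z)) ≤ 4 * J p g := by
  have ht0 : 0 < t := by linarith
  set Ψ : ℂ → ℝ≥0∞ := (ball (0:ℂ) 1).indicator (fun w => W p w * g w) with hΨ
  have hΨm : Measurable Ψ := ((W_meas p).mul hg).indicator measurableSet_ball
  have h2 : J p (fun z => g (t * z)) ≤ ∫⁻ z : ℂ, Ψ (t • z) := by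
    unfold J
    rw [← lintegral_indicator measurableSet_ball]
    refine lintegral_mono fun z => ?_
    by_cases hz : z ∈ ball (0:ℂ) 1
    · rw [Set.indicator_of_mem hz, hΨ, Complex.real_smul,
        Set.indicator_of_mem (dil_mem ht0.le h1 hz)]
      gcongr
      unfold W
      apply ENNReal.ofReal_le_ofReal
      apply Real.rpow_le_rpow
      · rw [mem_ball_zero_iff] at hz
        linarith
      · have := norm_dil_le ht0.le h1 z
        linarith
      · linarith
    · rw [Set.indicator_of_notMem hz]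
      exact zero_le
  have h3 : ∫⁻ z : ℂ, Ψ (t • z) = ENNReal.ofReal |(t ^ 2)⁻¹| * J p g := by
    have h4 := Measure.map_addHaar_smul (volume : Measure ℂ) ht0.ne'
    rw [Complex.finrank_real_complex] at h4
    rw [← lintegral_map (f := Ψ) hΨm (measurable_const_smul t), h4, lintegral_smul_measure,
      smul_eq_mul]
    unfold J
    rw [← lintegral_indicator measurableSet_ball]
  refine h2.trans ?_
  rw [h3]
  gcongr
  rw [abs_of_pos (by positivity), show (4 : ℝ≥0∞) = ENNReal.ofReal 4 by simp]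
  apply ENNReal.ofReal_le_ofReal
  rw [inv_le_comm₀ (by positivity) (by norm_num)]
  nlinarith

/-- Cauchy's estimate for the derivative of a bounded function on the disc -/
theorem deriv_bound {M : ℂ → ℂ} {K : ℝ} (hM : DifferentiableOn ℂ M (ball 0 1))
    (hK : ∀ z ∈ ball (0:ℂ) 1, ‖M z‖ ≤ K) {w : ℂ} (hw : w ∈ ball (0:ℂ) 1) :
    ‖deriv M w‖ ≤ K / (1 - ‖w‖) := by
  have hw' : ‖w‖ < 1 := mem_ball_zero_iff.mp hw
  have h1 : ∀ R : ℝ, 0 < R → R < 1 - ‖w‖ → ‖deriv M w‖ ≤ K / R := by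
    intro R hR hR1
    have hsub : closedBall w R ⊆ ball (0:ℂ) 1 := by
      intro x hx
      rw [mem_closedBall, dist_eq_norm] at hx
      rw [mem_ball_zero_iff]
      calc ‖x‖ = ‖(x - w) + w‖ := by congr 1; ring
        _ ≤ ‖x - w‖ + ‖w‖ := norm_add_le _ _
        _ < 1 := by linarith
    apply Complex.norm_deriv_le_of_forall_mem_sphere_norm_le hR
    · apply DifferentiableOn.diffContOnCl
      rw [closure_ball _ hR.ne']
      exact hM.mono hsub
    · intro z hz
      exact hK z (hsub (sphere_subset_closedBall hz))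
  have h2 : Tendsto (fun R : ℝ => K / R) (𝓝[<] (1 - ‖w‖)) (𝓝 (K / (1 - ‖w‖))) := by
    apply Tendsto.mono_left _ nhdsWithin_le_nhds
    apply ContinuousAt.tendsto
    apply ContinuousAt.div continuousAt_const continuousAt_id
    simp only [id]
    linarith
  refine ge_of_tendsto h2 ?_
  have h3 : Set.Ioo 0 (1 - ‖w‖) ∈ 𝓝[<] (1 - ‖w‖) := Ioo_mem_nhdsLT (by linarith)
  filter_upwards [h3] with R hR
  exact h1 R hR.1 hR.2

theorem diff_le {f : ℂ → ℂ} (hf : DifferentiableOn ℂ f (ball 0 1)) {r : ℝ} (hr0 : 0 ≤ r)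
    (hr1 : r ≤ 1) {z : ℂ} (hz : z ∈ ball (0:ℂ) 1) :
    ‖f z - f (r * z)‖ₑ ≤ ∫⁻ t in Set.Ioc r 1, ‖deriv f (t * z)‖ₑ := by
  have hd : ∀ t ∈ Set.Icc r 1, HasDerivAt (fun t : ℝ => f (t * z)) (z * deriv f (t * z)) t := by
    intro t ht
    have hmem := dil_mem (hr0.trans ht.1) ht.2 hz
    have h1 : HasDerivAt f (deriv f (t * z)) (t * z) :=
      (hf.differentiableAt (isOpen_ball.mem_nhds hmem)).hasDerivAt
    have h2 : HasDerivAt (fun t : ℝ => (t : ℂ) * z) z t := by
      simpa using (Complex.ofRealCLM.hasDerivAt (x := t)).mul_const z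
    have := h1.comp_of_eq t h2 rfl
    rw [mul_comm]
    exact this
  have hcont : ContinuousOn (fun t : ℝ => z * deriv f (t * z)) (Set.uIcc r 1) := by
    rw [Set.uIcc_of_le hr1]
    apply ContinuousOn.mul continuousOn_const
    have h1 : ContinuousOn (deriv f) (ball 0 1) := (hf.deriv isOpen_ball).continuousOn
    apply h1.comp (by fun_prop)
    intro t ht
    exact dil_mem (hr0.trans ht.1) ht.2 hz
  have h3 := intervalIntegral.integral_eq_sub_of_hasDerivAt
    (f := fun t : ℝ => f (t * z)) (f' := fun t : ℝ => z * deriv f (t * z))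
    (a := r) (b := 1) (by rw [Set.uIcc_of_le hr1]; exact hd) hcont.intervalIntegrable
  simp only [Complex.ofReal_one, one_mul] at h3
  rw [← h3, intervalIntegral.integral_of_le hr1]
  refine (enorm_integral_le_lintegral_enorm _).trans ?_
  refine lintegral_mono fun t => ?_
  rw [enorm_mul]
  have : ‖z‖ₑ ≤ 1 := by
    rw [← ofReal_norm, ← ENNReal.ofReal_one]
    exact ENNReal.ofReal_le_ofReal (mem_ball_zero_iff.mp hz).le
  calc ‖z‖ₑ * ‖deriv f (t * z)‖ₑ ≤ 1 * ‖deriv f (t * z)‖ₑ := by gcongr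
    _ = _ := one_mul _

theorem holder_Ioc {p : ℝ} (hp : 1 < p) {r : ℝ} {g : ℝ → ℝ≥0∞}
    (hg : Measurable g) : (∫⁻ t in Set.Ioc r 1, g t) ^ p ≤
      ENNReal.ofReal (1 - r) ^ (p - 1) * ∫⁻ t in Set.Ioc r 1, g t ^ p := by
  have hp0 : 0 < p := by linarith
  have hpq := Real.HolderConjugate.conjExponent hp
  have h := ENNReal.lintegral_mul_le_Lp_mul_Lq (volume.restrict (Set.Ioc r 1)) hpq
    (f := g) (g := fun _ => 1) hg.aemeasurable aemeasurable_const
  simp only [Pi.mul_apply, mul_one, ENNReal.one_rpow, lintegral_const, one_mul,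
    Measure.restrict_apply MeasurableSet.univ, Set.univ_inter, Real.volume_Ioc] at h
  have h1 := ENNReal.rpow_le_rpow h hp0.le
  rw [ENNReal.mul_rpow_of_nonneg _ _ hp0.le, ← ENNReal.rpow_mul, ← ENNReal.rpow_mul,
    one_div, inv_mul_cancel₀ hp0.ne', ENNReal.rpow_one] at h1
  have h2 : 1 / p.conjExponent * p = p - 1 := by
    rw [Real.conjExponent]
    have : p - 1 ≠ 0 := by linarith
    field_simp
  rw [h2] at h1
  rw [mul_comm]
  exact h1

end H731Dp
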