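import Pool.Agent.H731_Dp.Series

/-!
A Littlewood-Paley estimate for bounded functions on the disc.
-/

set_option autoImplicit false

namespace H731Dp

open MeasureTheory Complex Filter Topology Metric Finset H731WI
open scoped ENNReal Nat

theorem polar_int {G : ℂ → ℝ≥0∞} (hG : Measurable G) : ∫⁻ z in ball (0:ℂ) 1, G z =
    ∫⁻ r in Set.Ioo (0:ℝ) 1, ∫⁻ θ in Set.Ioo (-Real.pi) Real.pi,
      ENNReal.ofReal r * G (r * exp (θ * I)) := by
  have hGi : Measurable ((ball (0:ℂ) 1).indicator G) := hG.indicator measurableSet_ball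
  rw [← lintegral_indicator measurableSet_ball, ← Complex.lintegral_comp_polarCoord_symm]
  have ht : polarCoord.target = Set.Ioi (0:ℝ) ×ˢ Set.Ioo (-Real.pi) Real.pi := rfl
  rw [ht, Measure.volume_eq_prod, ← Measure.prod_restrict, lintegral_prod]
  · have hsplit : Set.Ioi (0:ℝ) = Set.Ioo 0 1 ∪ Set.Ici 1 := by
      ext x
      simp only [Set.mem_Ioi, Set.mem_union, Set.mem_Ioo, Set.mem_Ici]
      constructor
      · intro h
        rcases lt_or_ge x 1 with h1 | h1
        · exact Or.inl ⟨h, h1⟩
        · exact Or.inr h1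
      · rintro (h | h)
        · exact h.1
        · linarith
    have hpol : ∀ (r θ : ℝ), Complex.polarCoord.symm (r, θ) = r * exp (θ * I) := by
      intro r θ
      rw [Complex.polarCoord_symm_apply, Complex.exp_mul_I]
      push_cast
      ring_nf
    rw [hsplit, lintegral_union measurableSet_Ici]
    · have hz : (∫⁻ x in Set.Ici (1:ℝ), ∫⁻ y in Set.Ioo (-Real.pi) Real.pi,
          ENNReal.ofReal (x, y).1 • (ball (0:ℂ) 1).indicator G (Complex.polarCoord.symm (x, y)))
          = 0 := by
        rw [← lintegral_zero (μ := volume.restrict (Set.Ici (1:ℝ)))]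
        refine setLIntegral_congr_fun measurableSet_Ici fun x hx => ?_
        rw [← lintegral_zero (μ := volume.restrict (Set.Ioo (-Real.pi) Real.pi))]
        refine lintegral_congr fun y => ?_
        rw [Set.indicator_of_notMem, smul_zero]
        rw [mem_ball_zero_iff, hpol, norm_mul, Complex.norm_exp_ofReal_mul_I, mul_one,
          Complex.norm_real, Real.norm_eq_abs, abs_of_nonneg (by simp at hx; linarith)]
        simp at hx
        linarith
      rw [hz, add_zero]
      refine setLIntegral_congr_fun measurableSet_Ioo fun x hx => ?_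
      refine lintegral_congr fun y => ?_
      simp only [smul_eq_mul]
      rw [hpol, Set.indicator_of_mem]
      rw [mem_ball_zero_iff, norm_mul, Complex.norm_exp_ofReal_mul_I, mul_one,
          Complex.norm_real, Real.norm_eq_abs, abs_of_nonneg hx.1.le]
      exact hx.2
    · rw [Set.disjoint_left]
      intro x hx1 hx2
      simp only [Set.mem_Ioo, Set.mem_Ici] at hx1 hx2
      linarith
  · apply Measurable.aemeasurable
    have h1 : Measurable (fun p : ℝ × ℝ => ENNReal.ofReal p.1) := by fun_prop
    have h2 : Measurable (fun p : ℝ × ℝ => Complex.polarCoord.symm p) := by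
      have : (fun p : ℝ × ℝ => Complex.polarCoord.symm p) =
          fun p => (p.1 : ℂ) * (Real.cos p.2 + Real.sin p.2 * I) := by
        funext p
        exact Complex.polarCoord_symm_apply p
      rw [this]
      fun_prop
    exact h1.smul (hGi.comp h2)

theorem inner_int {g : ℂ → ℂ} (hg : ContinuousOn g (ball 0 1)) {r : ℝ} (h0 : 0 ≤ r) (h1 : r < 1) :
    ∫⁻ θ in Set.Ioo (-Real.pi) Real.pi, ENNReal.ofReal (‖g (r * exp (θ * I))‖ ^ 2) =
      ENNReal.ofReal (2 * Real.pi * m2 g r) := by
  have hmem : ∀ θ : ℝ, (r : ℂ) * exp (θ * I) ∈ ball (0:ℂ) 1 := by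
    intro θ
    rw [mem_ball_zero_iff, norm_mul, Complex.norm_exp_ofReal_mul_I, mul_one,
      Complex.norm_real, Real.norm_eq_abs, abs_of_nonneg h0]
    exact h1
  have hc : Continuous (fun θ : ℝ => ‖g (r * exp (θ * I))‖ ^ 2) := by
    apply Continuous.pow
    apply Continuous.norm
    exact hg.comp_continuous (by fun_prop) hmem
  have hper : Function.Periodic (fun θ : ℝ => ‖g (r * exp (θ * I))‖ ^ 2) (2 * Real.pi) := by
    intro θ
    simp only
    congr 4
    push_cast
    rw [add_mul, Complex.exp_add, Complex.exp_two_pi_mul_I, mul_one]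
  rw [← ofReal_integral_eq_lintegral_ofReal (μ :=
    volume.restrict (Set.Ioo (-Real.pi) Real.pi)) (f := fun θ : ℝ => ‖g (r * exp (θ * I))‖ ^ 2)
    ((hc.integrableOn_Icc).mono_set Set.Ioo_subset_Icc_self)
    (Eventually.of_forall fun θ => by positivity)]
  congr 1
  rw [← integral_Ioc_eq_integral_Ioo, ← intervalIntegral.integral_of_le (by linarith [Real.pi_pos]),
    m2_eq, ← mul_assoc, mul_inv_cancel₀ (by positivity), one_mul]
  have := hper.intervalIntegral_add_eq (-Real.pi) 0
  rw [zero_add, show -Real.pi + 2 * Real.pi = Real.pi by ring] at this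
  exact this

end H731Dp
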