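import Pool.Agent.H731_WI.Mean
import Pool.Agent.H731_Dp.Cont

/-!
Taylor coefficients and quadratic means.
-/

set_option autoImplicit false

namespace H731Dp

open MeasureTheory Complex Filter Topology Metric Finset H731WI
open scoped ENNReal Nat

/-- Taylor coefficient at `0` -/
noncomputable def co (g : ℂ → ℂ) (k : ℕ) : ℂ := (k ! : ℂ)⁻¹ * iteratedDeriv k g 0

theorem co_hasSum {g : ℂ → ℂ} (hg : DifferentiableOn ℂ g (ball 0 1)) {z : ℂ}
    (hz : z ∈ ball (0:ℂ) 1) : HasSum (fun k => co g k * z ^ k) (g z) := by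
  have := Complex.hasSum_taylorSeries_on_ball hg hz
  simp only [sub_zero, smul_eq_mul] at this
  have e : (fun k => co g k * z ^ k) =
      fun k : ℕ => (k ! : ℂ)⁻¹ * (z ^ k * iteratedDeriv k g 0) := by
    funext k
    unfold co
    ring
  rw [e]
  exact this

theorem co_deriv (g : ℂ → ℂ) (k : ℕ) : co (deriv g) k = (k + 1) * co g (k + 1) := by
  unfold co
  rw [← iteratedDeriv_succ', Nat.factorial_succ]
  push_cast
  have h1 : (k ! : ℂ) ≠ 0 := by exact_mod_cast Nat.factorial_ne_zero k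
  have h2 : (k + 1 : ℂ) ≠ 0 := by exact_mod_cast Nat.succ_ne_zero k
  field_simp

theorem co_zero (g : ℂ → ℂ) : co g 0 = g 0 := by
  unfold co
  simp

theorem co_unif {g : ℂ → ℂ} (hg : DifferentiableOn ℂ g (ball 0 1)) {s : ℝ} (hs0 : 0 ≤ s)
    (hs1 : s < 1) :
    TendstoUniformlyOn (fun n z => ∑ k ∈ range n, co g k * z ^ k) g atTop (closedBall 0 s) := by
  have hs : (s : ℂ) ∈ ball (0:ℂ) 1 := by
    rw [mem_ball_zero_iff, Complex.norm_real, Real.norm_eq_abs, abs_of_nonneg hs0]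
    exact hs1
  have hu := (co_hasSum hg hs).summable.norm
  have h := tendstoUniformlyOn_tsum_nat (f := fun k z => co g k * z ^ k)
    (s := closedBall (0:ℂ) s) hu (by
      intro k z hz
      rw [norm_mul, norm_mul, norm_pow, norm_pow, Complex.norm_real, Real.norm_eq_abs,
        abs_of_nonneg hs0]
      gcongr
      exact mem_closedBall_zero_iff.mp hz)
  refine h.congr_right ?_
  intro z hz
  exact (co_hasSum hg (closedBall_subset_ball hs1 hz)).tsum_eq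

theorem m2_series {g : ℂ → ℂ} (hg : DifferentiableOn ℂ g (ball 0 1)) {s : ℝ} (hs0 : 0 ≤ s)
    (hs1 : s < 1) : HasSum (fun k => ‖co g k‖ ^ 2 * s ^ (2 * k)) (m2 g s) := by
  rw [hasSum_iff_tendsto_nat_of_nonneg (fun k => by positivity)]
  have := m2_tendsto (F := fun n z => ∑ k ∈ range n, co g k * z ^ k) (g := g) hs0
    (fun n => by fun_prop) (hg.continuousOn.mono (closedBall_subset_ball hs1)) (co_unif hg hs0 hs1)
  refine this.congr fun n => ?_
  exact m2_poly _ _ hs0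

theorem m2_le_one {g : ℂ → ℂ} (hg : DifferentiableOn ℂ g (ball 0 1))
    (h1 : ∀ z ∈ ball (0:ℂ) 1, ‖g z‖ ≤ 1) {s : ℝ} (hs0 : 0 ≤ s) (hs1 : s < 1) : m2 g s ≤ 1 := by
  rw [m2_eq]
  have hmem : ∀ θ : ℝ, (s : ℂ) * exp (θ * I) ∈ ball (0:ℂ) 1 := by
    intro θ
    rw [mem_ball_zero_iff, norm_mul, Complex.norm_exp_ofReal_mul_I, mul_one,
      Complex.norm_real, Real.norm_eq_abs, abs_of_nonneg hs0]
    exact hs1
  have hc : Continuous (fun θ : ℝ => ‖g (s * exp (θ * I))‖ ^ 2) := by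
    apply Continuous.pow
    apply Continuous.norm
    exact hg.continuousOn.comp_continuous (by fun_prop) hmem
  have h2 : (∫ θ in (0:ℝ)..(2 * Real.pi), ‖g (s * exp (θ * I))‖ ^ 2) ≤
      ∫ θ in (0:ℝ)..(2 * Real.pi), (1 : ℝ) := by
    apply intervalIntegral.integral_mono_on (by positivity) (hc.intervalIntegrable _ _)
      (continuous_const.intervalIntegrable _ _)
    intro θ _
    exact pow_le_one₀ (norm_nonneg _) (h1 _ (hmem θ))
  rw [intervalIntegral.integral_const, sub_zero, smul_eq_mul, mul_one] at h2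
  calc (2 * Real.pi)⁻¹ * ∫ θ in (0:ℝ)..(2 * Real.pi), ‖g (s * exp (θ * I))‖ ^ 2
      ≤ (2 * Real.pi)⁻¹ * (2 * Real.pi) := by gcongr
    _ = 1 := inv_mul_cancel₀ (by positivity)

theorem sum_co_le {g : ℂ → ℂ} (hg : DifferentiableOn ℂ g (ball 0 1))
    (h1 : ∀ z ∈ ball (0:ℂ) 1, ‖g z‖ ≤ 1) (n : ℕ) :
    ∑ k ∈ range n, ‖co g (k + 1)‖ ^ 2 ≤ 1 - ‖g 0‖ ^ 2 := by
  have h2 : ∀ s : ℝ, 0 ≤ s → s < 1 → ∑ k ∈ range (n + 1), ‖co g k‖ ^ 2 * s ^ (2 * k) ≤ 1 := by
    intro s hs0 hs1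
    exact (sum_le_hasSum _ (fun k _ => by positivity) (m2_series hg hs0 hs1)).trans
      (m2_le_one hg h1 hs0 hs1)
  have h3 : Tendsto (fun s : ℝ => ∑ k ∈ range (n + 1), ‖co g k‖ ^ 2 * s ^ (2 * k)) (𝓝[<] 1)
      (𝓝 (∑ k ∈ range (n + 1), ‖co g k‖ ^ 2 * (1:ℝ) ^ (2 * k))) := by
    apply Tendsto.mono_left _ nhdsWithin_le_nhds
    apply Continuous.tendsto
    fun_prop
  have h4 : ∑ k ∈ range (n + 1), ‖co g k‖ ^ 2 * (1:ℝ) ^ (2 * k) ≤ 1 := by
    refine le_of_tendsto h3 ?_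
    have : Set.Ioo (0:ℝ) 1 ∈ 𝓝[<] (1:ℝ) := Ioo_mem_nhdsLT one_pos
    filter_upwards [this] with s hs
    exact h2 s hs.1.le hs.2
  simp only [one_pow, mul_one] at h4
  rw [sum_range_succ', co_zero] at h4
  linarith

end H731Dp
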